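import Mathlib

set_option autoImplicit false

namespace Pool.Agent.Helper59

open Finset

/-- Orthogonality on `ZMod N` for integer frequencies. -/
lemma sum_char (N : ℕ) [NeZero N] (z : ℤ) :
    ∑ t : ZMod N, ZMod.stdAddChar (t * (z : ZMod N)) = if ((z : ZMod N) = 0) then (N : ℂ) else 0 := by
  classical
  have h := AddChar.sum_mulShift (R := ZMod N) (R' := ℂ) (z : ZMod N) (ZMod.isPrimitive_stdAddChar N)
  rw [h]
  simp [ZMod.card]

lemma char_sum {A ι : Type*} [AddCommGroup A] (ψ : AddChar A ℂ) (s : Finset ι) (f : ι → A) :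
    ψ (∑ i ∈ s, f i) = ∏ i ∈ s, ψ (f i) := by
  classical
  induction s using Finset.induction_on with
  | empty => simp
  | insert i s hi ih => rw [Finset.sum_insert hi, Finset.prod_insert hi, AddChar.map_add_eq_mul, ih]

/-- Weighted count of solutions as a character sum. -/
lemma fourier_count {k n : ℕ} (a : Fin k → ℤ) (f : Fin k → Fin n → ℂ) (N : ℕ) [NeZero N]
    (hN : (∑ i, |a i|) * (n : ℤ) < N) :
    (N : ℂ) * ∑ x ∈ Finset.univ.filter (fun x : Fin k → Fin n =>
        ∑ i, a i * (((x i : ℕ) : ℤ) + 1) = 0), ∏ i, f i (x i)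
      = ∑ t : ZMod N, ∏ i, ∑ v : Fin n,
          f i v * ZMod.stdAddChar (t * ((a i * (((v : ℕ) : ℤ) + 1) : ℤ) : ZMod N)) := by
  classical
  have key : ∀ x : Fin k → Fin n,
      (∑ t : ZMod N, ZMod.stdAddChar (t * ((∑ i, a i * (((x i : ℕ) : ℤ) + 1) : ℤ) : ZMod N)))
        = if (∑ i, a i * (((x i : ℕ) : ℤ) + 1) = 0) then (N : ℂ) else 0 := by
    intro x
    rw [sum_char]
    have hb : |∑ i, a i * (((x i : ℕ) : ℤ) + 1)| < N := by
      refine lt_of_le_of_lt ?_ hN
      calc |∑ i, a i * (((x i : ℕ) : ℤ) + 1)| ≤ ∑ i, |a i * (((x i : ℕ) : ℤ) + 1)| :=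
            Finset.abs_sum_le_sum_abs _ _
        _ ≤ ∑ i, |a i| * (n : ℤ) := by
            apply Finset.sum_le_sum
            intro i _
            rw [abs_mul]
            apply mul_le_mul_of_nonneg_left _ (abs_nonneg _)
            have := (x i).isLt
            rw [abs_of_nonneg (by positivity)]
            omega
        _ = (∑ i, |a i|) * (n : ℤ) := by rw [Finset.sum_mul]
    have : (((∑ i, a i * (((x i : ℕ) : ℤ) + 1) : ℤ) : ZMod N) = 0) ↔
        (∑ i, a i * (((x i : ℕ) : ℤ) + 1) = 0) := by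
      constructor
      · intro h
        rw [ZMod.intCast_zmod_eq_zero_iff_dvd] at h
        exact Int.eq_zero_of_abs_lt_dvd h hb
      · intro h
        rw [h]; simp
    simp only [this]
  rw [Finset.mul_sum, Finset.sum_filter]
  have e1 : ∀ t : ZMod N, ∏ i, ∑ v : Fin n,
          f i v * ZMod.stdAddChar (t * ((a i * (((v : ℕ) : ℤ) + 1) : ℤ) : ZMod N))
        = ∑ x : Fin k → Fin n, (∏ i, f i (x i)) *
            ZMod.stdAddChar (t * ((∑ i, a i * (((x i : ℕ) : ℤ) + 1) : ℤ) : ZMod N)) := by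
    intro t
    rw [Finset.prod_univ_sum]
    simp only [Fintype.piFinset_univ]
    apply Finset.sum_congr rfl
    intro x _
    rw [Finset.prod_mul_distrib]
    congr 1
    rw [Int.cast_sum, Finset.mul_sum, char_sum]
  simp only [e1]
  rw [Finset.sum_comm]
  apply Finset.sum_congr rfl
  intro x _
  rw [← Finset.mul_sum, key x]
  split_ifs <;> ring

end Pool.Agent.Helper59
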