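import Mathlib
import Pool.Agent.Helper59.FourierCount

set_option autoImplicit false

namespace Pool.Agent.Helper59

open Finset

/-- exponential sum over a weight -/
noncomputable def expSum {n : ℕ} (N : ℕ) [NeZero N] (w : Fin n → ℂ) (t : ZMod N) : ℂ :=
  ∑ v : Fin n, w v * ZMod.stdAddChar (t * ((((v : ℕ) : ℤ) + 1 : ℤ) : ZMod N))

lemma conj_char (N : ℕ) [NeZero N] (x : ZMod N) :
    (starRingEnd ℂ) (ZMod.stdAddChar x) = ZMod.stdAddChar (-x) := by
  rw [AddChar.map_neg_eq_inv]
  exact (Complex.inv_eq_conj (by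
    rw [ZMod.stdAddChar_apply]; exact Circle.norm_coe _)).symm

/-- product over a balanced sign pattern is the even power of the modulus -/
lemma prod_signs {k : ℕ} (s : Fin k → ℤ) (hs : ∀ i, s i = 1 ∨ s i = -1) (hsum : ∑ i, s i = 0)
    (z : ℂ) :
    ∏ i, (if s i = 1 then z else (starRingEnd ℂ) z) = ((‖z‖ ^ k : ℝ) : ℂ) := by
  classical
  have hcard : (Finset.univ.filter (fun i => s i = 1)).card
      = (Finset.univ.filter (fun i => ¬ s i = 1)).card := by
    have h1 : ∑ i, s i = ∑ i, (if s i = 1 then (1 : ℤ) else -1) := by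
      apply Finset.sum_congr rfl
      intro i _
      rcases hs i with h | h <;> simp [h]
    rw [h1, Finset.sum_ite] at hsum
    simp only [Finset.sum_const, nsmul_eq_mul, mul_one, mul_neg] at hsum
    omega
  have hk : k = (Finset.univ.filter (fun i => s i = 1)).card
      + (Finset.univ.filter (fun i => ¬ s i = 1)).card := by
    rw [Finset.card_filter_add_card_filter_not]
    simp
  rw [Finset.prod_ite, Finset.prod_const, Finset.prod_const, ← hcard, ← mul_pow, Complex.mul_conj]
  conv_rhs => rw [hk, ← hcard, ← two_mul, pow_mul]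
  rw [Complex.normSq_eq_norm_sq]
  push_cast
  rfl

/-- the count with weights for a balanced sign pattern -/
lemma sym_count {k n : ℕ} (s : Fin k → ℤ) (hs : ∀ i, s i = 1 ∨ s i = -1) (hsum : ∑ i, s i = 0)
    (w : Fin n → ℝ) (N : ℕ) [NeZero N] (hN : k * n < N) :
    (N : ℝ) * ∑ x ∈ Finset.univ.filter (fun x : Fin k → Fin n =>
        ∑ i, s i * (((x i : ℕ) : ℤ) + 1) = 0), ∏ i, w (x i)
      = ∑ t : ZMod N, ‖expSum N (fun v => (w v : ℂ)) t‖ ^ k := by
  have habs : ∀ i, |s i| = 1 := by
    intro i; rcases hs i with h | h <;> simp [h]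
  have h := fourier_count s (fun _ v => (w v : ℂ)) N (by
    simp only [habs]; simp; exact_mod_cast hN)
  have h2 : ∀ t : ZMod N, ∏ i, ∑ v : Fin n,
      (w v : ℂ) * ZMod.stdAddChar (t * ((s i * (((v : ℕ) : ℤ) + 1) : ℤ) : ZMod N))
      = ((‖expSum N (fun v => (w v : ℂ)) t‖ ^ k : ℝ) : ℂ) := by
    intro t
    rw [← prod_signs s hs hsum]
    apply Finset.prod_congr rfl
    intro i _
    rcases hs i with h | h
    · rw [if_pos h, h]
      simp [expSum]
    · rw [if_neg (by rw [h]; decide), h, expSum, map_sum]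
      apply Finset.sum_congr rfl
      intro v _
      rw [map_mul (starRingEnd ℂ), conj_char, Complex.conj_ofReal]
      congr 2
      push_cast
      ring
  simp only [h2] at h
  apply Complex.ofReal_injective
  push_cast
  push_cast at h
  exact h

/-- Main inequality: for a balanced sign pattern, the number of solutions is at most
`r^(k-1)` times the number of monochromatic solutions. -/
theorem sym_ineq {k n r : ℕ} (hk : 1 ≤ k) (s : Fin k → ℤ) (hs : ∀ i, s i = 1 ∨ s i = -1)
    (hsum : ∑ i, s i = 0) (c : Fin n → Fin r) :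
    (Finset.univ.filter (fun x : Fin k → Fin n => ∑ i, s i * (((x i : ℕ) : ℤ) + 1) = 0)).card
      ≤ r ^ (k - 1) * (Finset.univ.filter (fun x : Fin k → Fin n =>
          ∑ i, s i * (((x i : ℕ) : ℤ) + 1) = 0 ∧ ∀ i j : Fin k, c (x i) = c (x j))).card := by
  classical
  obtain ⟨k', rfl⟩ : ∃ k', k = k' + 1 := ⟨k - 1, by omega⟩
  set N : ℕ := (k' + 1) * n + 1 with hNdef
  have hN : (k' + 1) * n < N := by omega
  have : NeZero N := ⟨by omega⟩
  -- total count
  have hT := sym_count s hs hsum (fun _ => (1 : ℝ)) N hN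
  have hC : ∀ j : Fin r, _ := fun j => sym_count s hs hsum (fun v => if c v = j then (1 : ℝ) else 0) N hN
  -- decomposition of mono solutions
  have hmono : ((Finset.univ.filter (fun x : Fin (k' + 1) → Fin n =>
          ∑ i, s i * (((x i : ℕ) : ℤ) + 1) = 0 ∧ ∀ i j, c (x i) = c (x j))).card : ℝ)
      = ∑ j : Fin r, ∑ x ∈ Finset.univ.filter (fun x : Fin (k' + 1) → Fin n =>
        ∑ i, s i * (((x i : ℕ) : ℤ) + 1) = 0), ∏ i, (if c (x i) = j then (1 : ℝ) else 0) := by
    rw [Finset.sum_comm, ← Finset.filter_filter, Finset.card_filter]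
    push_cast
    apply Finset.sum_congr rfl
    intro x _
    by_cases hx : ∀ i j, c (x i) = c (x j)
    · rw [if_pos hx, Finset.sum_eq_single (c (x 0))]
      · rw [Finset.prod_eq_one]
        intro i _
        rw [if_pos (hx i 0)]
      · intro j _ hj
        apply Finset.prod_eq_zero (Finset.mem_univ 0)
        rw [if_neg (fun h => hj h.symm)]
      · intro h; exact absurd (Finset.mem_univ _) h
    · rw [if_neg hx, Finset.sum_eq_zero]
      intro j _
      by_contra hne
      apply hx
      have : ∀ i, c (x i) = j := by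
        intro i
        by_contra hi
        exact hne (Finset.prod_eq_zero (Finset.mem_univ i) (by rw [if_neg hi]))
      intro i i'
      rw [this i, this i']
  have hsumexp : ∀ t : ZMod N, expSum N (fun _ : Fin n => ((1 : ℝ) : ℂ)) t
      = ∑ j : Fin r, expSum N (fun v => (((if c v = j then (1 : ℝ) else 0) : ℝ) : ℂ)) t := by
    intro t
    simp only [expSum]
    rw [Finset.sum_comm]
    apply Finset.sum_congr rfl
    intro v _
    rw [← Finset.sum_mul]
    congr 1
    rw [← Complex.ofReal_sum]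
    congr 1
    rw [Finset.sum_ite_eq Finset.univ (c v) (fun _ => (1 : ℝ))]
    simp
  have hpw : ∀ t : ZMod N, ‖expSum N (fun _ : Fin n => ((1 : ℝ) : ℂ)) t‖ ^ (k' + 1)
      ≤ (r : ℝ) ^ k' * ∑ j : Fin r,
        ‖expSum N (fun v => (((if c v = j then (1 : ℝ) else 0) : ℝ) : ℂ)) t‖ ^ (k' + 1) := by
    intro t
    rw [hsumexp t]
    have h1 : ‖∑ j : Fin r, expSum N (fun v => (((if c v = j then (1 : ℝ) else 0) : ℝ) : ℂ)) t‖
        ≤ ∑ j : Fin r, ‖expSum N (fun v => (((if c v = j then (1 : ℝ) else 0) : ℝ) : ℂ)) t‖ :=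
      norm_sum_le _ _
    have h2 := pow_sum_le_card_mul_sum_pow (s := (Finset.univ : Finset (Fin r)))
      (f := fun j => ‖expSum N (fun v => (((if c v = j then (1 : ℝ) else 0) : ℝ) : ℂ)) t‖)
      (fun i _ => norm_nonneg _) k'
    refine le_trans (pow_le_pow_left₀ (norm_nonneg _) h1 _) ?_
    simpa using h2
  have hfin : (N : ℝ) * ((Finset.univ.filter (fun x : Fin (k' + 1) → Fin n =>
        ∑ i, s i * (((x i : ℕ) : ℤ) + 1) = 0)).card : ℝ)
      ≤ (N : ℝ) * ((r : ℝ) ^ k' * ((Finset.univ.filter (fun x : Fin (k' + 1) → Fin n =>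
          ∑ i, s i * (((x i : ℕ) : ℤ) + 1) = 0 ∧ ∀ i j, c (x i) = c (x j))).card : ℝ)) := by
    have e1 : (N : ℝ) * ((Finset.univ.filter (fun x : Fin (k' + 1) → Fin n =>
        ∑ i, s i * (((x i : ℕ) : ℤ) + 1) = 0)).card : ℝ)
        = ∑ t : ZMod N, ‖expSum N (fun _ : Fin n => ((1 : ℝ) : ℂ)) t‖ ^ (k' + 1) := by
      rw [← hT]; simp
    rw [e1, hmono, mul_left_comm, Finset.mul_sum _ _ (N : ℝ)]
    simp only [hC]
    rw [Finset.sum_comm, Finset.mul_sum]
    exact Finset.sum_le_sum (fun t _ => hpw t)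
  have hNpos : (0 : ℝ) < N := by
    have : 0 < N := by omega
    exact_mod_cast this
  have := le_of_mul_le_mul_left hfin hNpos
  simp only [Nat.add_sub_cancel]
  exact_mod_cast this

end Pool.Agent.Helper59
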